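import Pool.Agent.MP_c69980_ag.H43.Spec10

set_option autoImplicit false

namespace Pool.Agent.MP_c69980_ag.H43

open Finset

/-- The statement for systems of equations, by induction on the number of unknowns. -/
theorem LdK_sys {K : Type} [Field K] {ι : Type} (d : ι → Derivation ℤ K K) (L : Subfield K)
    (hL : ∀ l, ∀ x ∈ L, d l x ∈ L) (N : ℕ) : ∀ (κ : Type) (s : κ → Fin N → K) (a : Fin N → K)
    (v : κ → K), (∀ k i, s k i ∈ L) → (∀ k, v k ∈ L) → (∀ i l, d l (a i) = 0) →
    (∀ k, v k = ∑ i, a i * s k i) →
    ∃ a' : Fin N → K, (∀ i, a' i ∈ L ∧ ∀ l, d l (a' i) = 0) ∧ ∀ k, v k = ∑ i, a' i * s k i := by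
  induction N with
  | zero =>
    intro κ s a v _ _ _ hv
    exact ⟨a, fun i => i.elim0, hv⟩
  | succ N ih =>
    intro κ s a v hs hvL ha hv
    by_cases h0 : ∀ k, s k 0 = 0
    · obtain ⟨a', h1, h2⟩ := ih κ (fun k i => s k i.succ) (fun i => a i.succ) v
        (fun k i => hs k _) hvL (fun i l => ha _ l) (fun k => by
          rw [hv k, Fin.sum_univ_succ, h0 k, mul_zero, zero_add])
      refine ⟨Fin.cons 0 a', fun i => ?_, fun k => ?_⟩
      · refine Fin.cases ?_ (fun i => ?_) i
        · exact ⟨L.zero_mem, fun l => by simp⟩
        · simpa using h1 i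
      · rw [Fin.sum_univ_succ, h2 k]
        simp
    · push Not at h0
      obtain ⟨k0, hk0⟩ := h0
      set w : K := v k0 / s k0 0 with hw
      set t : Fin N → K := fun i => s k0 i.succ / s k0 0 with ht
      have hwL : w ∈ L := L.div_mem (hvL k0) (hs k0 0)
      have htL : ∀ i, t i ∈ L := fun i => L.div_mem (hs k0 _) (hs k0 0)
      have ha0 : a 0 = w - ∑ i : Fin N, a i.succ * t i := by
        have h := hv k0
        rw [Fin.sum_univ_succ] at h
        have h3 : ∑ i : Fin N, a i.succ * t i = (∑ i : Fin N, a i.succ * s k0 i.succ) / s k0 0 := by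
          rw [Finset.sum_div]
          exact Finset.sum_congr rfl fun i _ => by rw [ht, mul_div_assoc]
        rw [h3, hw, h]
        field_simp
        ring
      have hder : ∀ (b : Fin N → K), (∀ i l, d l (b i) = 0) → ∀ l,
          d l (w - ∑ i : Fin N, b i * t i) = d l w - ∑ i : Fin N, b i * d l (t i) := by
        intro b hb l
        rw [map_sub, map_sum]
        congr 1
        exact Finset.sum_congr rfl fun i _ => by
          rw [Derivation.leibniz, hb i l]
          simp
      obtain ⟨a', h1, h2⟩ := ih (κ ⊕ ι)
        (Sum.elim (fun k i => s k i.succ - s k 0 * t i) (fun l i => d l (t i)))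
        (fun i => a i.succ) (Sum.elim (fun k => v k - s k 0 * w) (fun l => d l w))
        (by
          rintro (k | l) i
          · exact L.sub_mem (hs k _) (L.mul_mem (hs k 0) (htL i))
          · exact hL l _ (htL i))
        (by
          rintro (k | l)
          · exact L.sub_mem (hvL k) (L.mul_mem (hs k 0) hwL)
          · exact hL l _ hwL)
        (fun i l => ha _ l)
        (by
          rintro (k | l)
          · have h := hv k
            rw [Fin.sum_univ_succ, ha0] at h
            simp only [Sum.elim_inl, mul_sub, Finset.sum_sub_distrib]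
            have h4 : ∑ i : Fin N, a i.succ * (s k 0 * t i)
                = (∑ i : Fin N, a i.succ * t i) * s k 0 := by
              rw [Finset.sum_mul]
              exact Finset.sum_congr rfl fun i _ => by ring
            rw [h4, h]
            ring
          · have h := ha 0 l
            rw [ha0, hder (fun i => a i.succ) (fun i l => ha _ l) l] at h
            simp only [Sum.elim_inr]
            exact sub_eq_zero.mp h)
      refine ⟨Fin.cons (w - ∑ i : Fin N, a' i * t i) a', fun i => ?_, fun k => ?_⟩
      · refine Fin.cases ?_ (fun i => ?_) i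
        · refine ⟨?_, fun l => ?_⟩
          · exact L.sub_mem hwL (L.sum_mem fun i _ => L.mul_mem (h1 i).1 (htL i))
          · have h := h2 (Sum.inr l)
            simp only [Sum.elim_inr] at h
            simp only [Fin.cons_zero]
            rw [hder a' (fun i l => (h1 i).2 l) l, h, sub_self]
        · simpa using h1 i
      · have h := h2 (Sum.inl k)
        simp only [Sum.elim_inl, mul_sub, Finset.sum_sub_distrib] at h
        rw [Fin.sum_univ_succ]
        simp only [Fin.cons_zero, Fin.cons_succ]
        have h4 : ∑ i : Fin N, a' i * (s k 0 * t i) = (∑ i : Fin N, a' i * t i) * s k 0 := by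
          rw [Finset.sum_mul]
          exact Finset.sum_congr rfl fun i _ => by ring
        rw [h4] at h
        linear_combination h

theorem sLdK : SLdK := by
  intro K _ ι d L hL N s a v hs hv ha h
  obtain ⟨a', h1, h2⟩ := LdK_sys d L hL N Unit (fun _ => s) a (fun _ => v) (fun _ => hs)
    (fun _ => hv) ha (fun _ => h)
  exact ⟨a', h1, h2 ()⟩

end Pool.Agent.MP_c69980_ag.H43
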